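import Pool.Agent.X156.CC.Core

/-!
# Nonzero vertices of operator convex corners correspond to facets of the anti-blocker

Idea. Let `X` be a nonzero vertex of the convex corner `C`; its normal cone spans `H_n`. Let `P` be
the projection onto the common support of `C`. By Lagrange duality every `Y` in the normal cone
satisfies `P Y P = Y₊ - W` with `Y₊ ≥ 0` in the normal cone and `W ≥ 0`, `X W = 0`. So if `D = P D P`
is orthogonal to the (restricted) face `F` and to all `W ≥ 0` with `P W P = W`, `X W = 0`, then
`D = 0`. Applied to rank two matrices this shows that the elements of `F` have no common kernel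
vector in the range of `P`, so `F` contains an element `Z₀` which is positive definite there. Then
`Z₀ - ε W` belongs to the face of `C^♯` at `X` for all such `W` and small `ε`, and so does
`Z₀ + (1 - P) + ε B` if `P B P = 0`. It follows that the face of `C^♯` at `X` spans `H_n`.
-/

set_option autoImplicit false

open Matrix

namespace Pool.Agent.Results.MP_59e64e_co.VertexFacet

open Pool.Agent.X156.CC

/-- The real dimension of the space of Hermitian matrices. -/
theorem finrank_H (n : ℕ) : Module.finrank ℝ (H n) = n ^ 2 := by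
  let A := Matrix (Fin n) (Fin n) ℂ
  let Φ : (H n × H n) →ₗ[ℝ] A :=
    { toFun := fun p => (p.1 : A) + Complex.I • (p.2 : A)
      map_add' := fun p q => by
        change ((p.1 + q.1 : H n) : A) + Complex.I • ((p.2 + q.2 : H n) : A) = _
        rw [Submodule.coe_add, Submodule.coe_add, smul_add]
        abel
      map_smul' := fun t p => by
        change ((t • p.1 : H n) : A) + Complex.I • ((t • p.2 : H n) : A) =
          t • ((p.1 : A) + Complex.I • (p.2 : A))
        rw [Submodule.coe_smul, Submodule.coe_smul, smul_add, smul_comm] }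
  have hstar : ∀ B : H n, star (B : A) = B := fun B => B.2
  have hinj : Function.Injective Φ := by
    rw [← LinearMap.ker_eq_bot, LinearMap.ker_eq_bot']
    rintro ⟨B, C⟩ h
    have h1 : (B : A) + Complex.I • (C : A) = 0 := h
    have h2 : (B : A) - Complex.I • (C : A) = 0 := by
      have := congrArg star h1
      rw [star_add, star_smul, hstar, hstar, star_zero, Complex.star_def, Complex.conj_I,
        neg_smul] at this
      rw [sub_eq_add_neg]
      exact this
    have h3 : (B : A) = 0 := by
      have h4 : (2 : ℂ) • (B : A) = 0 := by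
        have := congrArg₂ (· + ·) h1 h2
        simp only [add_zero] at this
        rw [two_smul]
        rw [← this]
        abel
      exact (smul_eq_zero.1 h4).resolve_left two_ne_zero
    have h5 : (C : A) = 0 := by
      rw [h3, zero_add] at h1
      exact (smul_eq_zero.1 h1).resolve_left Complex.I_ne_zero
    exact Prod.ext (Subtype.ext h3) (Subtype.ext h5)
  have hsurj : Function.Surjective Φ := by
    intro M
    have h1 : star ((1 / 2 : ℂ) • (M + star M)) = (1 / 2 : ℂ) • (M + star M) := by
      rw [star_smul, star_add, star_star, add_comm (star M)]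
      congr 1
      simp
    have h2 : star ((-Complex.I / 2 : ℂ) • (M - star M)) =
        (-Complex.I / 2 : ℂ) • (M - star M) := by
      rw [star_smul, star_sub, star_star]
      have : star (-Complex.I / 2 : ℂ) = Complex.I / 2 := by
        apply Complex.ext <;> simp
      rw [this, ← neg_sub (star M) M, smul_neg, ← neg_smul]
      congr 1
      ring
    refine ⟨(⟨_, h1⟩, ⟨_, h2⟩), ?_⟩
    change (1 / 2 : ℂ) • (M + star M) + Complex.I • ((-Complex.I / 2 : ℂ) • (M - star M)) = M
    rw [smul_smul]
    have : Complex.I * (-Complex.I / 2) = 1 / 2 := by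
      have := Complex.I_mul_I
      linear_combination (-1 / 2) * this
    rw [this, ← smul_add]
    have h3 : M + star M + (M - star M) = (2 : ℂ) • M := by
      rw [two_smul]
      abel
    rw [h3, smul_smul]
    norm_num
  have h := LinearEquiv.finrank_eq (LinearEquiv.ofBijective Φ ⟨hinj, hsurj⟩)
  rw [Module.finrank_prod, Module.finrank_matrix, Complex.finrank_real_complex,
    Fintype.card_fin] at h
  rw [sq]
  omega

/-- **Positive answer to Q1.** For every `n`, every convex corner `C ⊆ P_n` and every nonzero
vertex `X` of `C`, the set `{Z ∈ C^♯ | Tr (X Z) = 1}` is a facet of the anti-blocker `C^♯`. -/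
theorem result (n : ℕ) (C : Set (H n)) (hC : IsCorner C) (X : H n) (hX : IsVertex C X)
    (hX0 : X ≠ 0) : IsFacet (antiblocker C) {Z | Z ∈ antiblocker C ∧ tr X Z = 1} := by
  obtain ⟨hXC, _, hvert⟩ := hX
  set F : Set (H n) := {Z | Z ∈ antiblocker C ∧ tr X Z = 1} with hF
  have hspan : ∀ D : H n, (∀ Z ∈ F, tr D Z = 0) → D = 0 := fun D hD =>
    eq_zero_of_face hC hXC hX0 hvert fun Z hZ h1 => hD Z ⟨hZ, h1⟩
  have hne : F.Nonempty := by
    by_contra hcon
    rw [Set.not_nonempty_iff_eq_empty] at hcon
    apply hX0
    apply hspan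
    intro Z hZ
    rw [hcon] at hZ
    exact absurd hZ (Set.notMem_empty Z)
  obtain ⟨Z0, hZ0⟩ := hne
  have hXX := tr_self_pos hX0
  refine ⟨⟨X, 1, hX0, ⟨fun Z hZ => ?_, fun Z hZ => ?_⟩, ?_⟩, ⟨Z0, hZ0⟩, ?_, ?_⟩
  · rw [tr_comm]
    exact hZ.2 X hXC
  · rw [tr_comm]
    exact hZ.2
  · ext Z
    constructor
    · rintro ⟨h1, h2⟩
      exact ⟨h1, by rw [tr_comm]; exact h2⟩
    · rintro ⟨h1, h2⟩
      exact ⟨h1, by rw [tr_comm]; exact h2⟩
  · -- boundary
    intro Z hZ
    refine ⟨subset_closure hZ.1, fun hint => ?_⟩
    have hcont : Filter.Tendsto (fun s : ℝ => Z + s • X) (nhdsWithin 0 (Set.Ioi 0)) (nhds Z) := by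
      have h1 : Continuous fun s : ℝ => Z + s • X := by fun_prop
      have h2 := h1.tendsto 0
      rw [zero_smul, add_zero] at h2
      exact h2.mono_left nhdsWithin_le_nhds
    have h3 := hcont.eventually (mem_interior_iff_mem_nhds.1 hint)
    obtain ⟨s, hs1, hs2⟩ := (h3.and self_mem_nhdsWithin).exists
    have h4 := hs1.2 X hXC
    rw [tr_add_right, tr_smul_right, hZ.2] at h4
    have hs2 : (0 : ℝ) < s := hs2
    have := mul_pos hs2 hXX
    linarith
  · -- dimension
    have hker : vectorSpan ℝ F = LinearMap.ker (trL X) := by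
      apply le_antisymm
      · rw [vectorSpan_def, Submodule.span_le]
        rintro _ ⟨Z, hZ, Z', hZ', rfl⟩
        change trL X (Z - Z') = 0
        rw [map_sub, trL_apply, trL_apply, tr_comm, hZ.2, tr_comm, hZ'.2, sub_self]
      · intro v hv
        by_contra hcon
        obtain ⟨f, hf, hle⟩ := Submodule.exists_le_ker_of_notMem hcon
        obtain ⟨D, hD⟩ := exists_rep f
        have hconst : ∀ Z ∈ F, tr D Z = tr D Z0 := by
          intro Z hZ
          have h1 : Z - Z0 ∈ vectorSpan ℝ F := vsub_mem_vectorSpan ℝ hZ hZ0
          have h2 : f (Z - Z0) = 0 := hle h1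
          rw [hD, tr_sub_left, tr_comm, tr_comm Z0] at h2
          linarith
        have h3 : D - (tr D Z0) • X = 0 := by
          apply hspan
          intro Z hZ
          rw [tr_sub_left, tr_smul_left, hZ.2, hconst Z hZ]
          ring
        rw [sub_eq_zero] at h3
        apply hf
        rw [hD, h3, tr_smul_right]
        have h4 : tr v X = 0 := hv
        rw [h4, mul_zero]
    have hsurj : LinearMap.range (trL X) = ⊤ := by
      rw [LinearMap.range_eq_top]
      intro r
      refine ⟨(r / tr X X) • X, ?_⟩
      rw [map_smul, trL_apply, smul_eq_mul, div_mul_cancel₀ _ hXX.ne']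
    have h5 := LinearMap.finrank_range_add_finrank_ker (trL X)
    rw [hsurj, finrank_top, Module.finrank_self, finrank_H] at h5
    rw [hker]
    omega

end Pool.Agent.Results.MP_59e64e_co.VertexFacet
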